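import Pool.Agent.R413.CV.Core

/-!
The positive real zeros of the `L`-functions of representations with image of order a power of `ℓ`,
for a positive proportion of the primes `ℓ`.
-/

set_option autoImplicit false
set_option maxHeartbeats 1000000

open Module

namespace Pool.Agent.R413.CV

open Pool.Agent.W343.BSD
open Pool.Agent.Y711
open Pool.Agent.R413.DT
open Pool.Agent.Y701.CH (PosDensity PosDensity.diff PosDensity.mono)
open Pool.Agent.TH639.SG (eq_one_of_pow)

/-- The number is real and positive. -/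
def Pos (b : ℂ) : Prop := 0 < b.re ∧ b.im = 0

/-- The number is the nonnegative power of the positive square root of `q`. -/
def HalfPower (q : ℕ) (a : ℂ) : Prop := Pos a ∧ ∃ w : ℕ, a ^ 2 = (q : ℂ) ^ w

theorem pos_iff {b : ℂ} : Pos b ↔ ∃ x : ℝ, 0 < x ∧ b = (x : ℂ) := by
  constructor
  · rintro ⟨h1, h2⟩
    exact ⟨b.re, h1, Complex.ext (by simp) (by simp [h2])⟩
  · rintro ⟨x, hx, rfl⟩
    exact ⟨by simpa using hx, Complex.ofReal_im x⟩

theorem pos_of_sq_real {s : ℂ} (hs : s ≠ 0) (h : s.im = 0) : Pos (s ^ 2) := by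
  rw [pos_iff]
  refine ⟨s.re ^ 2, ?_, ?_⟩
  · refine lt_of_le_of_ne (sq_nonneg _) (Ne.symm (pow_ne_zero 2 ?_))
    intro hre
    exact hs (Complex.ext hre h)
  · have h4 : s = ((s.re : ℝ) : ℂ) := Complex.ext (by simp) (by simp [h])
    conv_lhs => rw [h4]
    push_cast
    rfl

theorem real_of_sq_pos {s b : ℂ} (h : s ^ 2 = b) (hb : Pos b) : (starRingEnd ℂ) s = s := by
  obtain ⟨x, hx, rfl⟩ := pos_iff.1 hb
  have h1 : s ^ 2 = ((Real.sqrt x : ℝ) : ℂ) ^ 2 := by
    rw [h, ← Complex.ofReal_pow, Real.sq_sqrt hx.le]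
  rcases sq_eq_sq_iff_eq_or_eq_neg.1 h1 with h2 | h2
  · rw [h2, Complex.conj_ofReal]
  · rw [h2, map_neg, Complex.conj_ofReal]

/-- the positive square root of `q` -/
noncomputable def rootZ (q : ℕ) : Zb :=
  ⟨((Real.sqrt q : ℝ) : ℂ), by
    refine IsIntegral.of_pow (n := 2) two_pos ?_
    rw [← Complex.ofReal_pow, Real.sq_sqrt (Nat.cast_nonneg q), Complex.ofReal_natCast]
    have h : IsIntegral ℤ (algebraMap ℤ ℂ (q : ℤ)) := isIntegral_algebraMap
    simpa using h⟩

theorem rootZ_sq (q : ℕ) : rootZ q ^ 2 = (q : Zb) := by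
  apply zb_inj
  rw [map_pow, map_natCast]
  show (((Real.sqrt q : ℝ) : ℂ)) ^ 2 = _
  rw [← Complex.ofReal_pow, Real.sq_sqrt (Nat.cast_nonneg q), Complex.ofReal_natCast]

theorem halfPower_eq {q : ℕ} {r w : ℕ} {a : ℂ} (ha : Pos a)
    (h : a ^ 2 = ((q ^ r : ℕ) : ℂ) ^ w) : a = algebraMap Zb ℂ (rootZ q ^ (r * w)) := by
  obtain ⟨x, hx, rfl⟩ := pos_iff.1 ha
  rw [map_pow]
  show _ = (((Real.sqrt q : ℝ) : ℂ)) ^ (r * w)
  rw [← Complex.ofReal_pow]
  congr 1
  have h1 : x ^ 2 = (q : ℝ) ^ (r * w) := by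
    have h2 : ((x ^ 2 : ℝ) : ℂ) = (((q : ℝ) ^ (r * w) : ℝ) : ℂ) := by
      push_cast
      rw [h, pow_mul]
      push_cast
      rfl
    exact_mod_cast h2
  have h3 : (Real.sqrt q ^ (r * w)) ^ 2 = (q : ℝ) ^ (r * w) := by
    rw [← pow_mul, mul_comm, pow_mul, Real.sq_sqrt (Nat.cast_nonneg q)]
  have h4 : 0 ≤ Real.sqrt q ^ (r * w) := pow_nonneg (Real.sqrt_nonneg _) _
  have h5 := sq_eq_sq₀ hx.le h4
  rw [h1, h3] at h5
  exact h5.1 rfl

open Classical in
/-- **The arithmetic bounds.** -/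
theorem arith (k : Type) [Field k] [Finite k] {C B : Multiset ℂ} (hC : ∀ c ∈ C, IsIntegral ℤ c)
    (hB : ∀ b ∈ B, IsIntegral ℤ b) :
    ∃ S : Set ℕ, PosDensity S ∧ ∀ ℓ ∈ S, ℓ.Prime ∧ IsSquare ((Nat.card k : ℕ) : ZMod ℓ) ∧
      ∀ (j n d r : ℕ), r ∣ (ℓ - 1) / 2 * ℓ ^ j → r ≠ 0 → ∀ (ι : Type) (dg : ι → ℕ)
        (A : ι → Multiset ℂ) (P D : Multiset ℂ), (∀ n, {i | dg i ≤ n}.Finite) →
        (∀ z, (A z).card = d) → (∀ z, ∀ a ∈ A z, a ^ ℓ ^ n = 1) → (∀ b ∈ D, IsIntegral ℤ b) →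
        eulerProd dg (fun z => (1 - PowerSeries.X ^ dg z : PowerSeries ℂ)) *
          prodOne (B.map fun b => b ^ r) = prodOne (C.map fun c => c ^ r) →
        eulerProd dg (fun z => loc (dg z) (A z)) * prodOne D = prodOne P →
        (P.filter (HalfPower (Nat.card k ^ r))).card + d * (B.filter Pos).card ≤
          D.card + d * (C.filter Pos).card ∧
        (D.filter (HalfPower (Nat.card k ^ r))).card + d * (C.filter Pos).card ≤
          P.card + d * (B.filter Pos).card := by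
  obtain ⟨C', hC'⟩ := exists_liftMul C hC
  obtain ⟨B', hB'⟩ := exists_liftMul B hB
  choose sq hsq using exists_sqrt
  set q : ℕ := Nat.card k with hqd
  have hq0 : 0 < q := Nat.card_pos
  set t : Zb := rootZ q with ht
  have htsq : t ^ 2 = (q : Zb) := rootZ_sq q
  have htpos : Pos (algebraMap Zb ℂ t) := by
    rw [pos_iff]
    exact ⟨Real.sqrt q, Real.sqrt_pos.2 (by exact_mod_cast hq0), rfl⟩
  -- the exceptional elements
  set E : Finset Zb := insert t (B' + C').toFinset with hE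
  set C₁ : Finset Zb := E.image sq with hC₁
  set V : Finset Zb := ((C₁.image (fun c => conjZ c - c)) ∪ E).filter (fun v => v ≠ 0) with hV
  have hV0 : ∀ v ∈ V, v ≠ 0 := fun v hv => (Finset.mem_filter.1 hv).2
  have hfin : {ℓ : ℕ | ℓ ≤ q + 2}.Finite := Set.finite_Iic (q + 2)
  refine ⟨_, (hom_density C₁ V hV0).diff hfin, ?_⟩
  rintro ℓ ⟨⟨hℓ, R, _, _, ρ, hρC, hρV⟩, hℓ2⟩
  have hℓ2' : q + 2 < ℓ := by
    by_contra h
    exact hℓ2 (not_lt.1 h)
  have hfact : Fact ℓ.Prime := ⟨hℓ⟩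
  have hℓne2 : ℓ ≠ 2 := by omega
  have hodd : ℓ - 1 = 2 * ((ℓ - 1) / 2) := by
    have := hℓ.eq_two_or_odd
    omega
  have hpowℓ : ∀ x : R, x ^ ℓ = x ^ (ℓ - 1) * x := by
    intro x
    rw [← pow_succ, Nat.sub_add_cancel hℓ.one_lt.le]
  -- positive numbers
  have hE1 : ∀ x ∈ E, Pos (algebraMap Zb ℂ x) → ρ x ^ ((ℓ - 1) / 2) = 1 := by
    intro x hx hpos
    have hs : sq x ^ 2 = x := hsq x
    have hconj : conjZ (sq x) = sq x := by
      apply Subtype.ext
      show (starRingEnd ℂ) ((sq x : Zb) : ℂ) = ((sq x : Zb) : ℂ)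
      refine real_of_sq_pos (b := algebraMap Zb ℂ x) ?_ hpos
      conv_rhs => rw [← hs]
      rfl
    have h1 : ρ (sq x) = ρ (sq x) ^ ℓ := by
      have := hρC (sq x) (Finset.mem_image_of_mem _ hx) (conjZ (sq x)) rfl
      rwa [hconj] at this
    have hx0 : x ≠ 0 := by
      rintro rfl
      have := hpos.1
      simp at this
    have hρx : ρ x ≠ 0 := hρV x (Finset.mem_filter.2 ⟨Finset.mem_union_right _ hx, hx0⟩)
    have hρs : ρ (sq x) ≠ 0 := by
      intro h
      apply hρx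
      rw [← hs, map_pow, h, zero_pow two_ne_zero]
    have h2 : ρ (sq x) ^ (ℓ - 1) = 1 := by
      rw [hpowℓ] at h1
      exact (mul_right_cancel₀ hρs (by rw [one_mul]; exact h1)).symm
    rw [← hs, map_pow, ← pow_mul, ← hodd, h2]
  have hE2 : ∀ x ∈ E, ρ x ^ ((ℓ - 1) / 2) = 1 → Pos (algebraMap Zb ℂ x) := by
    intro x hx h
    have hs : sq x ^ 2 = x := hsq x
    have h1 : ρ (sq x) ^ (ℓ - 1) = 1 := by
      rw [hodd, pow_mul, ← map_pow, hs, h]
    have hl2 : (ℓ - 1) / 2 ≠ 0 := by omega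
    have hx0 : x ≠ 0 := by
      rintro rfl
      rw [map_zero, zero_pow hl2] at h
      exact zero_ne_one h
    have h4 : ρ (sq x) ^ ℓ = ρ (sq x) := by
      rw [hpowℓ, h1, one_mul]
    have h6 : ρ (conjZ (sq x) - sq x) = 0 := by
      rw [map_sub, hρC (sq x) (Finset.mem_image_of_mem _ hx) (conjZ (sq x)) rfl, h4, sub_self]
    have h7 : conjZ (sq x) - sq x = 0 := by
      by_contra hne
      exact hρV _ (Finset.mem_filter.2 ⟨Finset.mem_union_left _
        (Finset.mem_image.2 ⟨sq x, Finset.mem_image_of_mem _ hx, rfl⟩), hne⟩) h6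
    have h8 : (starRingEnd ℂ) ((sq x : Zb) : ℂ) = ((sq x : Zb) : ℂ) := by
      have := congrArg (fun x : Zb => (x : ℂ)) (sub_eq_zero.1 h7)
      exact this
    have h9 : algebraMap Zb ℂ x = ((sq x : Zb) : ℂ) ^ 2 := by
      conv_lhs => rw [← hs]
      rfl
    rw [h9]
    refine pos_of_sq_real ?_ (Complex.conj_eq_iff_im.1 h8)
    intro h0
    apply hx0
    have : sq x = 0 := Subtype.ext h0
    rw [← hs, this, zero_pow two_ne_zero]
  have htE : t ∈ E := Finset.mem_insert_self _ _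
  have hρt : ρ t ^ ((ℓ - 1) / 2) = 1 := hE1 t htE htpos
  have hsquare : IsSquare ((q : ℕ) : ZMod ℓ) := by
    have h3 : ((q : ℕ) : R) ^ ((ℓ - 1) / 2) = 1 := by
      have h4 : ((q : ℕ) : R) = ρ t ^ 2 := by
        rw [← map_pow, htsq, map_natCast]
      rw [h4, ← pow_mul, mul_comm, pow_mul, hρt, one_pow]
    have hq0' : ((q : ℕ) : ZMod ℓ) ≠ 0 := by
      intro h
      have h1 := (ZMod.natCast_eq_zero_iff q ℓ).1 h
      have := Nat.le_of_dvd hq0 h1
      omega
    rw [ZMod.euler_criterion ℓ hq0']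
    have h4 : ℓ / 2 = (ℓ - 1) / 2 := by
      have := hℓ.eq_two_or_odd
      omega
    rw [h4]
    have h5 : (ZMod.castHom (dvd_refl ℓ) R) (((q : ℕ) : ZMod ℓ) ^ ((ℓ - 1) / 2)) =
        (ZMod.castHom (dvd_refl ℓ) R) 1 := by
      rw [map_pow, map_natCast, map_one, h3]
    exact (ZMod.castHom (dvd_refl ℓ) R).injective h5
  refine ⟨hℓ, hsquare, ?_⟩
  intro j n d r hr hr0 ι dg A P D hdg hd hA hD hz hl
  obtain ⟨M, hM⟩ := hr
  have hM0 : M ≠ 0 := by
    rintro rfl
    rw [mul_zero] at hM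
    have h1 : (ℓ - 1) / 2 ≠ 0 := by omega
    exact mul_ne_zero h1 (pow_pos hℓ.pos j).ne' hM
  obtain ⟨A', P', D', hA', hP', hD', hl'⟩ := integral_P hℓ hdg hA hD hl
  have hcount := exact_count (r := r) hℓ ρ hdg (C' := C') (B' := B') (P' := P') (D' := D')
    (A' := A') (d := d) (n := n)
    (fun z => by rw [← Multiset.card_map (algebraMap Zb ℂ) (A' z), hA', hd])
    (fun z a ha => by
      apply zb_inj
      rw [map_pow, map_one]
      apply hA z
      rw [← hA']
      exact Multiset.mem_map_of_mem _ ha)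
    (by rw [hB', hC']; exact hz) hl' hM0
  -- the numbers in `B` and `C`
  have hkey : ∀ x ∈ E, ρ x ^ (r * M) = 1 ↔ Pos (algebraMap Zb ℂ x) := by
    intro x hx
    rw [← hM]
    constructor
    · intro h
      apply hE2 x hx
      apply eq_one_of_pow (ℓ := ℓ) (m := j)
      rw [← pow_mul]
      exact h
    · intro h
      rw [pow_mul, hE1 x hx h, one_pow]
  have hcard : ∀ X' : Multiset Zb, (∀ x ∈ X', x ∈ E) →
      (X'.filter (fun b => ρ b ^ (r * M) = 1)).card =
        ((X'.map (algebraMap Zb ℂ)).filter Pos).card := by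
    intro X' hX
    rw [Multiset.filter_map, Multiset.card_map]
    congr 1
    refine Multiset.filter_congr fun x hx => ?_
    exact hkey x (hX x hx)
  have hBE : ∀ x ∈ B', x ∈ E := fun x hx =>
    Finset.mem_insert_of_mem (Multiset.mem_toFinset.2 (Multiset.mem_add.2 (Or.inl hx)))
  have hCE : ∀ x ∈ C', x ∈ E := fun x hx =>
    Finset.mem_insert_of_mem (Multiset.mem_toFinset.2 (Multiset.mem_add.2 (Or.inr hx)))
  rw [hcard B' hBE, hcard C' hCE, hB', hC'] at hcount
  -- the numbers in `P` and `D`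
  have hle : ∀ X' : Multiset Zb, ((X'.map (algebraMap Zb ℂ)).filter (HalfPower (q ^ r))).card ≤
      (X'.filter (fun a => ρ a ^ M = 1)).card := by
    intro X'
    rw [Multiset.filter_map, Multiset.card_map]
    apply Multiset.card_le_card
    apply Multiset.monotone_filter_right
    rintro x ⟨h1, w, h2⟩
    have h3 := halfPower_eq h1 h2
    have h4 : x = t ^ (r * w) := zb_inj h3
    rw [h4, map_pow, ← pow_mul]
    have h5 : r * w * M = (ℓ - 1) / 2 * (ℓ ^ j * w) := by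
      calc r * w * M = r * M * w := by ring
        _ = (ℓ - 1) / 2 * (ℓ ^ j * w) := by rw [← hM]; ring
    rw [h5, pow_mul, hρt, one_pow]
  have hP1 := hle P'
  have hD1 := hle D'
  rw [hP'] at hP1
  rw [hD'] at hD1
  have hP2 : (P'.filter (fun a => ρ a ^ M = 1)).card ≤ P.card := by
    rw [← hP', Multiset.card_map]
    exact Multiset.card_le_card (Multiset.filter_le _ _)
  have hD2 : (D'.filter (fun a => ρ a ^ M = 1)).card ≤ D.card := by
    rw [← hD', Multiset.card_map]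
    exact Multiset.card_le_card (Multiset.filter_le _ _)
  constructor
  · omega
  · omega

end Pool.Agent.R413.CV
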