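import Pool.Agent.R413.DT.Family
import Pool.Agent.R413.DT.Arith

/-!
The reductions of the `L`-functions of representations with image of order a power of `ℓ`.
-/

set_option autoImplicit false
set_option maxHeartbeats 1000000

open Module

namespace Pool.Agent.R413.CV

open Pool.Agent.W343.BSD
open Pool.Agent.Y711
open Pool.Agent.R413.DT
open Pool.Agent.TH639.SG (eq_one_of_pow)

section loc

variable {R S : Type} [CommRing R] [CommRing S]

/-- The product of the `1 - a X ^ e`. -/
noncomputable def loc (e : ℕ) (A : Multiset R) : PowerSeries R :=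
  (A.map fun a => 1 - PowerSeries.C a * PowerSeries.X ^ e).prod

theorem loc_cons (e : ℕ) (a : R) (A : Multiset R) :
    loc e (a ::ₘ A) = (1 - PowerSeries.C a * PowerSeries.X ^ e) * loc e A := by
  unfold loc
  rw [Multiset.map_cons, Multiset.prod_cons]

theorem loc_mod (e : ℕ) (A : Multiset R) :
    (PowerSeries.X : PowerSeries R) ^ e ∣ loc e A - 1 := by
  induction A using Multiset.induction_on with
  | empty =>
    unfold loc
    simp
  | cons a A ih =>
    rw [loc_cons]
    apply one_mod_mul _ ih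
    rw [sub_right_comm, sub_self, zero_sub, dvd_neg]
    exact dvd_mul_left _ _

theorem map_loc (φ : R →+* S) (e : ℕ) (A : Multiset R) :
    PowerSeries.map φ (loc e A) = loc e (A.map φ) := by
  induction A using Multiset.induction_on with
  | empty =>
    unfold loc
    simp
  | cons a A ih =>
    rw [loc_cons, map_mul, ih, Multiset.map_cons, loc_cons, map_sub, map_mul, map_one, map_pow,
      PowerSeries.map_X, PowerSeries.map_C]

theorem loc_one {e : ℕ} {A : Multiset R} (h : ∀ a ∈ A, a = 1) :
    loc e A = (1 - PowerSeries.X ^ e) ^ A.card := by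
  induction A using Multiset.induction_on with
  | empty =>
    unfold loc
    simp
  | cons a A ih =>
    rw [loc_cons, ih (fun b hb => h b (Multiset.mem_cons_of_mem hb)),
      h a (Multiset.mem_cons_self a A), map_one, one_mul, Multiset.card_cons, pow_succ, mul_comm]

variable {ι : Type} {dg : ι → ℕ}

theorem euler_pow (hfin : ∀ n, {i | dg i ≤ n}.Finite) (d : ℕ) :
    eulerProd dg (fun z => (1 - PowerSeries.X ^ dg z : PowerSeries R) ^ d) =
      eulerProd dg (fun z => (1 - PowerSeries.X ^ dg z : PowerSeries R)) ^ d := by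
  have h := eulerProd_prod hfin (Finset.range d)
    (fun _ z => (1 - PowerSeries.X ^ dg z : PowerSeries R)) (fun _ z => by
      rw [sub_right_comm, sub_self, zero_sub, dvd_neg])
  simp only [Finset.prod_const, Finset.card_range] at h
  exact h

/-- **The reduction of the product of the local factors.** -/
theorem reduction {ℓ n d : ℕ} (hℓ : ℓ.Prime) {K : Type} [Field K] [CharP K ℓ] (ρ : R →+* K)
    (hfin : ∀ n, {i | dg i ≤ n}.Finite) {A : ι → Multiset R} (hd : ∀ z, (A z).card = d)
    (hA : ∀ z, ∀ a ∈ A z, a ^ ℓ ^ n = 1) :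
    PowerSeries.map ρ (eulerProd dg (fun z => loc (dg z) (A z))) =
      eulerProd dg (fun z => (1 - PowerSeries.X ^ dg z : PowerSeries K)) ^ d := by
  have hfact : Fact ℓ.Prime := ⟨hℓ⟩
  rw [map_eulerProd hfin, ← euler_pow hfin]
  congr 1
  funext z
  rw [map_loc, loc_one, Multiset.card_map, hd]
  intro a ha
  obtain ⟨b, hb, rfl⟩ := Multiset.mem_map.1 ha
  apply eq_one_of_pow (ℓ := ℓ) (m := n)
  rw [← map_pow, hA z b hb, map_one]

end loc

section count

variable {K : Type} [Field K]

theorem cu_pow (M d : ℕ) {f : Polynomial K} (hf : f ≠ 0) : cu M (f ^ d) = d * cu M f := by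
  induction d with
  | zero =>
    rw [pow_zero, zero_mul]
    unfold cu
    simp
  | succ d ih => rw [pow_succ, cu_mul M (pow_ne_zero d hf) hf, ih, Nat.succ_mul]

end count

section main

variable {ι : Type} {dg : ι → ℕ}

/-- The data: the zeta function with the numbers `C` and `B`, and the `L`-function with the numbers
`P` and `D`. -/
structure Data (dg : ι → ℕ) (C B P D : Multiset ℂ) (r : ℕ) (A : ι → Multiset ℂ) : Prop where
  zeta : eulerProd dg (fun z => (1 - PowerSeries.X ^ dg z : PowerSeries ℂ)) *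
    prodOne (B.map fun b => b ^ r) = prodOne (C.map fun c => c ^ r)
  lfun : eulerProd dg (fun z => loc (dg z) (A z)) * prodOne D = prodOne P

theorem integral_P {ℓ n : ℕ} (hℓ : ℓ.Prime) (hfin : ∀ n, {i | dg i ≤ n}.Finite)
    {P D : Multiset ℂ} {A : ι → Multiset ℂ} (hA : ∀ z, ∀ a ∈ A z, a ^ ℓ ^ n = 1)
    (hD : ∀ b ∈ D, IsIntegral ℤ b)
    (h : eulerProd dg (fun z => loc (dg z) (A z)) * prodOne D = prodOne P) :
    ∃ (A' : ι → Multiset Zb) (P' D' : Multiset Zb), (∀ z, (A' z).map (algebraMap Zb ℂ) = A z) ∧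
      P'.map (algebraMap Zb ℂ) = P ∧ D'.map (algebraMap Zb ℂ) = D ∧
      eulerProd dg (fun z => loc (dg z) (A' z)) * prodOne D' = prodOne P' := by
  have h1 : ∀ z, ∃ X : Multiset Zb, X.map (algebraMap Zb ℂ) = A z := by
    intro z
    apply exists_liftMul
    intro a ha
    refine IsIntegral.of_pow (n := ℓ ^ n) (pow_pos hℓ.pos n) ?_
    rw [hA z a ha]
    exact isIntegral_one
  choose A' hA' using h1
  obtain ⟨D', hD'⟩ := exists_liftMul D hD
  have hmap : PowerSeries.map (algebraMap Zb ℂ)
      (eulerProd dg (fun z => loc (dg z) (A' z)) * prodOne D') = prodOne P := by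
    rw [map_mul, map_prodOne, hD', map_eulerProd hfin, ← h]
    congr 2
    funext z
    rw [map_loc, hA']
  obtain ⟨Q, hQ, hQP⟩ := exists_liftPoly zb_inj (P := polyOne P) (by
    rw [hmap, coe_polyOne])
  obtain ⟨P', hP'⟩ := exists_liftMul P (integral_of_poly hQP)
  refine ⟨A', P', D', hA', hP', hD', ?_⟩
  apply PowerSeries.map_injective (algebraMap Zb ℂ) zb_inj
  rw [hmap, map_prodOne, hP']

open Classical in
/-- **The exact count modulo `ℓ`.** -/
theorem exact_count {ℓ n d r : ℕ} (hℓ : ℓ.Prime) {K : Type} [Field K] [CharP K ℓ] (ρ : Zb →+* K)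
    (hfin : ∀ n, {i | dg i ≤ n}.Finite) {C' B' P' D' : Multiset Zb} {A' : ι → Multiset Zb}
    (hd : ∀ z, (A' z).card = d) (hA : ∀ z, ∀ a ∈ A' z, a ^ ℓ ^ n = 1)
    (hz : eulerProd dg (fun z => (1 - PowerSeries.X ^ dg z : PowerSeries ℂ)) *
      prodOne ((B'.map (algebraMap Zb ℂ)).map fun b => b ^ r) =
        prodOne ((C'.map (algebraMap Zb ℂ)).map fun c => c ^ r))
    (hl : eulerProd dg (fun z => loc (dg z) (A' z)) * prodOne D' = prodOne P') {M : ℕ}
    (hM : M ≠ 0) :
    (P'.filter (fun a => ρ a ^ M = 1)).card + d * (B'.filter (fun b => ρ b ^ (r * M) = 1)).card =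
      (D'.filter (fun a => ρ a ^ M = 1)).card +
        d * (C'.filter (fun b => ρ b ^ (r * M) = 1)).card := by
  -- the zeta function over `Zb`
  have hz' : eulerProd dg (fun z => (1 - PowerSeries.X ^ dg z : PowerSeries Zb)) *
      prodOne (B'.map fun b => b ^ r) = prodOne (C'.map fun c => c ^ r) := by
    apply PowerSeries.map_injective (algebraMap Zb ℂ) zb_inj
    rw [map_mul, map_prodOne, map_prodOne, map_eulerProd hfin, Multiset.map_map, Multiset.map_map]
    rw [Multiset.map_map, Multiset.map_map] at hz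
    have e1 : (fun z => PowerSeries.map (algebraMap Zb ℂ)
        (1 - PowerSeries.X ^ dg z : PowerSeries Zb)) =
        fun z => (1 - PowerSeries.X ^ dg z : PowerSeries ℂ) := by
      funext z
      rw [map_sub, map_one, map_pow, PowerSeries.map_X]
    have e2 : ∀ X : Multiset Zb, X.map ((algebraMap Zb ℂ : Zb → ℂ) ∘ fun b => b ^ r) =
        X.map ((fun b : ℂ => b ^ r) ∘ (algebraMap Zb ℂ)) := by
      intro X
      refine Multiset.map_congr rfl fun x _ => ?_
      simp
    rw [e1, e2, e2]
    exact hz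
  -- the reductions
  have h1 := congrArg (PowerSeries.map ρ) hl
  rw [map_mul, reduction hℓ ρ hfin hd hA, map_prodOne, map_prodOne] at h1
  have h2 := congrArg (PowerSeries.map ρ) hz'
  rw [map_mul, map_prodOne, map_prodOne, map_eulerProd hfin] at h2
  have e1 : (fun z => PowerSeries.map ρ (1 - PowerSeries.X ^ dg z : PowerSeries Zb)) =
      fun z => (1 - PowerSeries.X ^ dg z : PowerSeries K) := by
    funext z
    rw [map_sub, map_one, map_pow, PowerSeries.map_X]
  rw [e1] at h2
  have h3 : prodOne (P'.map ρ) * prodOne ((B'.map fun b => b ^ r).map ρ) ^ d =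
      prodOne (D'.map ρ) * prodOne ((C'.map fun b => b ^ r).map ρ) ^ d := by
    rw [← h1, ← h2, mul_pow]
    ring
  have h4 : polyOne (P'.map ρ) * polyOne ((B'.map fun b => b ^ r).map ρ) ^ d =
      polyOne (D'.map ρ) * polyOne ((C'.map fun b => b ^ r).map ρ) ^ d := by
    apply Polynomial.coe_injective K
    rw [Polynomial.coe_mul, Polynomial.coe_mul, Polynomial.coe_pow, Polynomial.coe_pow,
      coe_polyOne, coe_polyOne, coe_polyOne, coe_polyOne, h3]
  have h5 := congrArg (cu M) h4
  rw [cu_mul M (polyOne_ne _) (pow_ne_zero d (polyOne_ne _)),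
    cu_mul M (polyOne_ne _) (pow_ne_zero d (polyOne_ne _)), cu_pow M d (polyOne_ne _),
    cu_pow M d (polyOne_ne _), cu_polyOne hM, cu_polyOne hM, cu_polyOne hM, cu_polyOne hM] at h5
  have e3 : ∀ X : Multiset Zb, ((X.map ρ).filter (fun a => a ^ M = 1)).card =
      (X.filter (fun a => ρ a ^ M = 1)).card := by
    intro X
    rw [Multiset.filter_map, Multiset.card_map]
    rfl
  have e4 : ∀ X : Multiset Zb, (((X.map fun b => b ^ r).map ρ).filter (fun a => a ^ M = 1)).card =
      (X.filter (fun a => ρ a ^ (r * M) = 1)).card := by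
    intro X
    rw [Multiset.map_map, Multiset.filter_map, Multiset.card_map]
    congr 1
    refine Multiset.filter_congr fun x _ => ?_
    show ρ (x ^ r) ^ M = 1 ↔ _
    rw [map_pow, ← pow_mul]
  rw [e3 P', e3 D', e4 B', e4 C'] at h5
  exact h5

end main

end Pool.Agent.R413.CV
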