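import Pool.Agent.R413.CV.Geo

/-!
The bounds for constructible sets over finite extensions.
-/

set_option autoImplicit false
set_option maxHeartbeats 1000000

open Module

namespace Pool.Agent.R413.CV

open Pool.Agent.TH639.SN
open Pool.Agent.W343.BSD
open Pool.Agent.Y711
open Pool.Agent.R413.DT

variable {k : Type} [Field k] [Finite k] {k' : Type} [Field k'] [Finite k'] [Algebra k k'] {m : ℕ}
  {ι : Type}

/-- The zeta function over the extension. -/
theorem zeta_ext {G : ι → MvPolynomial (Fin m) k'} {Q : Set ι → Prop} {C B : Multiset ℂ}
    (h : ∀ (E : Type) [Field E] [Finite E] [Algebra k E] [Algebra k' E] [IsScalarTower k k' E],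
      (Nat.card {x : Fin m → E // Q {i | MvPolynomial.aeval x (G i) = 0}} : ℂ) =
        (C.map fun c => c ^ finrank k E).sum - (B.map fun b => b ^ finrank k E).sum) :
    eulerProd (fun z : ClosedPoints G Q => deg m k' z.1)
      (fun z => (1 - PowerSeries.X ^ deg m k' z.1 : PowerSeries ℂ)) *
        prodOne (B.map fun b => b ^ finrank k k') = prodOne (C.map fun c => c ^ finrank k k') := by
  refine zetaC_formula G Q ?_
  intro E _ _ _
  let _ : Algebra k E := ((algebraMap k' E).comp (algebraMap k k')).toAlgebra
  have hT : IsScalarTower k k' E := IsScalarTower.of_algebraMap_eq fun x => rfl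
  have hfd : Module.Finite k k' := Module.Finite.of_finite
  have hfd2 : Module.Finite k' E := Module.Finite.of_finite
  have h1 := h E
  have h2 : finrank k E = finrank k k' * finrank k' E := (Module.finrank_mul_finrank k k' E).symm
  have h3 : ∀ X : Multiset ℂ, ((X.map fun c => c ^ finrank k k').map
      fun c => c ^ finrank k' E).sum = (X.map fun c => c ^ finrank k E).sum := by
    intro X
    rw [Multiset.map_map]
    congr 1
    refine Multiset.map_congr rfl fun x _ => ?_
    rw [Function.comp_apply, ← pow_mul, ← h2]
  rw [h3, h3]
  exact h1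

end Pool.Agent.R413.CV
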