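import Pool.Agent.R413.CV.Arith

/-!
All the zeros `u q ^ (-w / 2)` of the `L`-functions of representations with image of order a power of
`ℓ`, for a positive proportion of the primes `ℓ`.
-/

set_option autoImplicit false
set_option maxHeartbeats 1000000

open Module

namespace Pool.Agent.R413.CV

open Pool.Agent.W343.BSD
open Pool.Agent.Y711
open Pool.Agent.R413.DT
open Pool.Agent.Y701.CH (PosDensity PosDensity.diff PosDensity.mono)
open Pool.Agent.TH639.SG (eq_one_of_pow)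

/-- A positive power of the number is a nonzero real number. -/
def RealPow (b : ℂ) : Prop := b ≠ 0 ∧ ∃ w : ℕ, 0 < w ∧ (b ^ w).im = 0

/-- The number is a root of unity times a nonnegative power of the square root of `q`. -/
def Twisted (q : ℕ) (a : ℂ) : Prop := ∃ s w : ℕ, 0 < s ∧ (a ^ 2) ^ s = ((q : ℂ) ^ w) ^ s

section roots

variable {K : Type} [Field K]

open Classical in
theorem roots_polyOne (A : Multiset K) :
    (polyOne A).roots = (A.filter (fun a => a ≠ 0)).map (fun a => a⁻¹) := by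
  induction A using Multiset.induction_on with
  | empty =>
    unfold polyOne
    simp
  | cons a A ih =>
    have h1 : polyOne (a ::ₘ A) = (1 - Polynomial.C a * Polynomial.X) * polyOne A := by
      unfold polyOne
      rw [Multiset.map_cons, Multiset.prod_cons]
    have hne : (1 - Polynomial.C a * Polynomial.X : Polynomial K) ≠ 0 := by
      intro h
      have := congrArg (fun p => Polynomial.coeff p 0) h
      simp at this
    rw [h1, Polynomial.roots_mul (mul_ne_zero hne (polyOne_ne A)), ih, Multiset.filter_cons]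
    by_cases ha : a = 0
    · subst ha
      simp
    · have h2 : (1 - Polynomial.C a * Polynomial.X : Polynomial K) =
          Polynomial.C (-a) * (Polynomial.X - Polynomial.C a⁻¹) := by
        rw [mul_sub, ← Polynomial.C_mul, neg_mul, mul_inv_cancel₀ ha, Polynomial.C_neg,
          Polynomial.C_neg, Polynomial.C_1]
        ring
      rw [h2, Polynomial.roots_C_mul _ (neg_ne_zero.2 ha), Polynomial.roots_X_sub_C, if_pos ha,
        Multiset.map_add, Multiset.map_singleton]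

open Classical in
/-- The multiplicity of an element. -/
noncomputable def cnt {α : Type} (a : α) (A : Multiset α) : ℕ := A.count a

theorem cnt_pos {α : Type} {a : α} {A : Multiset α} : 0 < cnt a A ↔ a ∈ A := by
  classical
  unfold cnt
  exact Multiset.count_pos

theorem cnt_map {α β : Type} {f : α → β} (hf : Function.Injective f) (A : Multiset α) (a : α) :
    cnt (f a) (A.map f) = cnt a A := by
  classical
  unfold cnt
  exact Multiset.count_map_eq_count' _ _ hf a

theorem count_polyOne (A : Multiset K) {a : K} (ha : a ≠ 0) :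
    (polyOne A).rootMultiplicity a⁻¹ = cnt a A := by
  classical
  unfold cnt
  rw [← Polynomial.count_roots, roots_polyOne, Multiset.count_map_eq_count' _ _ inv_injective,
    Multiset.count_filter, if_pos ha]

end roots

section galois

/-- The inclusion of the algebraic integers in the algebraic numbers. -/
noncomputable def jQ : Zb →+* Qb :=
  (algebraMap Zb ℂ).codRestrict (algebraicClosure ℚ ℂ) (fun x => by
    rw [mem_algebraicClosure_iff]
    have h : IsIntegral ℤ (x : ℂ) := x.2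
    exact (h.tower_top (A := ℚ)).isAlgebraic)

theorem jQ_coe (x : Zb) : ((jQ x : Qb) : ℂ) = algebraMap Zb ℂ x := rfl

theorem jQ_inj : Function.Injective jQ := by
  intro x y h
  apply zb_inj
  rw [← jQ_coe, ← jQ_coe, h]

variable {ι : Type} {dg : ι → ℕ}

open Classical in
/-- The conjugates of the numbers. -/
theorem conj_count {ℓ n : ℕ} (hfin : ∀ n, {i | dg i ≤ n}.Finite) {P' D' : Multiset Zb}
    {A' : ι → Multiset Zb} (hA : ∀ z, ∀ a ∈ A' z, a ^ ℓ ^ n = 1)
    (hl : eulerProd dg (fun z => loc (dg z) (A' z)) * prodOne D' = prodOne P')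
    (σ : Qb ≃ₐ[ℚ] Qb) (hσ : ∀ x : Qb, x ^ ℓ ^ n = 1 → σ x = x) {a : Zb} (ha : a ≠ 0) :
    cnt (σ (jQ a)) (P'.map jQ) + cnt a D' = cnt a P' + cnt (σ (jQ a)) (D'.map jQ) := by
  set φ : Qb →+* Qb := (σ : Qb →+* Qb) with hφ
  have hφσ : ∀ x, φ x = σ x := fun _ => rfl
  have hφi : Function.Injective φ := φ.injective
  have h1 := congrArg (PowerSeries.map jQ) hl
  rw [map_mul, map_prodOne, map_prodOne, map_eulerProd hfin] at h1
  have h2 := congrArg (PowerSeries.map φ) h1
  rw [map_mul, map_prodOne, map_prodOne, map_eulerProd hfin] at h2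
  have e1 : (fun z => PowerSeries.map φ (PowerSeries.map jQ (loc (dg z) (A' z)))) =
      fun z => PowerSeries.map jQ (loc (dg z) (A' z)) := by
    funext z
    rw [map_loc, map_loc, Multiset.map_map]
    congr 1
    refine Multiset.map_congr rfl fun x hx => ?_
    rw [Function.comp_apply, hφσ]
    apply hσ
    rw [← map_pow, hA z x hx, map_one]
  rw [e1] at h2
  have h3 : polyOne (P'.map jQ) * polyOne ((D'.map jQ).map φ) =
      polyOne ((P'.map jQ).map φ) * polyOne (D'.map jQ) := by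
    apply Polynomial.coe_injective Qb
    rw [Polynomial.coe_mul, Polynomial.coe_mul, coe_polyOne, coe_polyOne, coe_polyOne,
      coe_polyOne, ← h1, ← h2]
    ring
  have ha' : φ (jQ a) ≠ 0 := by
    intro h0
    apply ha
    apply jQ_inj
    apply hφi
    rw [h0, map_zero, map_zero]
  have h4 := congrArg (Polynomial.rootMultiplicity (φ (jQ a))⁻¹) h3
  rw [Polynomial.rootMultiplicity_mul (mul_ne_zero (polyOne_ne _) (polyOne_ne _)),
    Polynomial.rootMultiplicity_mul (mul_ne_zero (polyOne_ne _) (polyOne_ne _)),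
    count_polyOne _ ha', count_polyOne _ ha', count_polyOne _ ha', count_polyOne _ ha',
    cnt_map hφi, cnt_map hφi, cnt_map jQ_inj, cnt_map jQ_inj] at h4
  exact h4

open Classical in
/-- **The order of the root of unity.** -/
theorem order_le {ℓ n : ℕ} (hℓ : ℓ.Prime) {P' : Multiset Zb}
    {a η : Zb} {c w e : ℕ} (hc : c ≠ 0) (haη : a ^ 2 = η * (c : Zb)) (hw : 0 < w)
    (hwℓ : ¬ ℓ ∣ w) (hη : IsPrimitiveRoot η (w * ℓ ^ e))
    (h : ∀ σ : Qb ≃ₐ[ℚ] Qb, (∀ x : Qb, x ^ ℓ ^ n = 1 → σ x = x) → a ≠ 0 →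
      σ (jQ a) ∈ P'.map jQ) :
    w.totient ≤ P'.card := by
  have hζ : IsPrimitiveRoot (jQ η) (w * ℓ ^ e) := hη.map_of_injective jQ_inj
  have hcop : (w * 1).Coprime (ℓ ^ (e + n)) := by
    apply Nat.Coprime.pow_right
    apply Nat.Coprime.symm
    rw [hℓ.coprime_iff_not_dvd, mul_one]
    exact hwℓ
  have ha0 : a ≠ 0 := by
    rintro rfl
    rw [zero_pow two_ne_zero] at haη
    rcases mul_eq_zero.1 haη.symm with h1 | h1
    · have h2 := hη.pow_eq_one
      have ho : w * ℓ ^ e ≠ 0 := (Nat.mul_pos hw (pow_pos hℓ.pos e)).ne'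
      rw [h1, zero_pow ho] at h2
      exact zero_ne_one h2
    · exact hc (by exact_mod_cast h1)
  have hex : ∀ s : ℕ, s.Coprime w → ∃ S : ℕ, S.Coprime (w * 1 * ℓ ^ (e + n)) ∧ S ≡ s [MOD w] ∧
      S ≡ 1 [MOD ℓ ^ (e + n)] := fun s hs => exists_exponent hw one_pos hcop hs
  choose! Sf hS1 hS2 hS3 using hex
  have hN : 0 < w * 1 * ℓ ^ (e + n) := Nat.mul_pos (by omega) (pow_pos hℓ.pos _)
  have haut : ∀ s : ℕ, s.Coprime w → ∃ σ : Qb ≃ₐ[ℚ] Qb,
      ∀ x : Qb, x ^ (w * 1 * ℓ ^ (e + n)) = 1 → σ x = x ^ Sf s := fun s hs =>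
    exists_aut hN (hS1 s hs)
  choose! σf hσf using haut
  have hmem : ∀ s : ℕ, s.Coprime w → σf s (jQ a) ∈ P'.map jQ := by
    intro s hs
    refine h (σf s) ?_ ha0
    intro x hx
    have h1 : x ^ (w * 1 * ℓ ^ (e + n)) = 1 := by
      have h2 : w * 1 * ℓ ^ (e + n) = ℓ ^ n * (w * ℓ ^ e) := by rw [pow_add]; ring
      rw [h2, pow_mul, hx, one_pow]
    rw [hσf s hs x h1]
    have h3 : Sf s ≡ 1 [MOD ℓ ^ n] := (hS3 s hs).of_dvd (pow_dvd_pow ℓ (by omega))
    have := pow_eq_pow_of_modEq h3 hx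
    rwa [pow_one] at this
  have hsq : ∀ s : ℕ, s.Coprime w → (σf s (jQ a)) ^ 2 = jQ η ^ Sf s * (c : Qb) := by
    intro s hs
    have h1 : jQ a ^ 2 = jQ η * (c : Qb) := by
      rw [← map_pow, haη, map_mul, map_natCast]
    have h2 : (jQ η) ^ (w * 1 * ℓ ^ (e + n)) = 1 := by
      have h3 : w * 1 * ℓ ^ (e + n) = w * ℓ ^ e * ℓ ^ n := by rw [pow_add]; ring
      rw [h3, pow_mul, hζ.pow_eq_one, one_pow]
    rw [← map_pow, h1, map_mul, map_natCast, hσf s hs _ h2]
  have hcQ : (c : Qb) ≠ 0 := by exact_mod_cast hc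
  calc w.totient = ((Finset.range w).filter w.Coprime).card := Nat.totient_eq_card_coprime w
    _ ≤ (P'.map jQ).toFinset.card := by
      refine Finset.card_le_card_of_injOn (fun s => σf s (jQ a)) ?_ ?_
      · intro s hs
        have hs' := (Finset.mem_filter.1 hs).2
        rw [Finset.mem_coe, Multiset.mem_toFinset]
        exact hmem s hs'.symm
      · intro s hs s' hs' heq
        have h1 := Finset.mem_filter.1 hs
        have h2 := Finset.mem_filter.1 hs'
        have h3 : jQ η ^ Sf s = jQ η ^ Sf s' := by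
          apply mul_right_cancel₀ hcQ
          rw [← hsq s h1.2.symm, ← hsq s' h2.2.symm]
          exact congrArg (fun x : Qb => x ^ 2) heq
        have h4 : Sf s ≡ Sf s' [MOD w * ℓ ^ e] := by
          have hpos : 0 < w * ℓ ^ e := Nat.mul_pos hw (pow_pos hℓ.pos e)
          apply hζ.pow_inj (Nat.mod_lt _ hpos) (Nat.mod_lt _ hpos)
          rw [← pow_eq_pow_mod _ hζ.pow_eq_one, ← pow_eq_pow_mod _ hζ.pow_eq_one]
          exact h3
        have h5 : s ≡ s' [MOD w] :=
          ((hS2 s h1.2.symm).symm.trans (h4.of_dvd (dvd_mul_right w _))).trans (hS2 s' h2.2.symm)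
        rw [Nat.ModEq, Nat.mod_eq_of_lt (Finset.mem_range.1 h1.1),
          Nat.mod_eq_of_lt (Finset.mem_range.1 h2.1)] at h5
        exact h5
    _ ≤ (P'.map jQ).card := Multiset.toFinset_card_le _
    _ = P'.card := Multiset.card_map _ _

end galois

open Classical in
theorem filter_split {Z : Type} {X Y : Multiset Z} (p g : Z → Prop)
    (h : ∀ x, p x → ¬ g x → cnt x X ≤ cnt x Y) :
    (X.filter p).card + (Y.filter g).card ≤ (X.filter g).card + Y.card := by
  have h1 : X.filter p ≤ X.filter g + Y.filter (fun x => ¬ g x) := by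
    rw [Multiset.le_iff_count]
    intro x
    rw [Multiset.count_add, Multiset.count_filter, Multiset.count_filter, Multiset.count_filter]
    by_cases hp : p x
    · by_cases hg : g x
      · simp [hp, hg]
      · have := h x hp hg
        unfold cnt at this
        simp [hp, hg, this]
    · simp [hp]
  have h2 := Multiset.card_le_card h1
  rw [Multiset.card_add] at h2
  have h3 := congrArg Multiset.card (Multiset.filter_add_not g Y)
  rw [Multiset.card_add] at h3
  omega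

open Classical in
/-- **The geometric bounds.** -/
theorem geo (k : Type) [Field k] [Finite k] {C B : Multiset ℂ} (hC : ∀ c ∈ C, IsIntegral ℤ c)
    (hB : ∀ b ∈ B, IsIntegral ℤ b) (r₀ D₀ : ℕ) (hr₀ : 0 < r₀) :
    ∃ S : Set ℕ, PosDensity S ∧ ∀ ℓ ∈ S, ℓ.Prime ∧
      ∀ (j n d r : ℕ), r ∣ r₀ * (ℓ - 1) * ℓ ^ j → r ≠ 0 → ∀ (ι : Type) (dg : ι → ℕ)
        (A : ι → Multiset ℂ) (P D : Multiset ℂ), (∀ n, {i | dg i ≤ n}.Finite) →
        (∀ z, (A z).card = d) → (∀ z, ∀ a ∈ A z, a ^ ℓ ^ n = 1) → (∀ b ∈ D, IsIntegral ℤ b) →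
        eulerProd dg (fun z => (1 - PowerSeries.X ^ dg z : PowerSeries ℂ)) *
          prodOne (B.map fun b => b ^ r) = prodOne (C.map fun c => c ^ r) →
        eulerProd dg (fun z => loc (dg z) (A z)) * prodOne D = prodOne P →
        (P.card ≤ D₀ → (P.filter (Twisted (Nat.card k ^ r))).card + d * (B.filter RealPow).card ≤
          D.card + d * (C.filter RealPow).card) ∧
        (D.card ≤ D₀ → (D.filter (Twisted (Nat.card k ^ r))).card + d * (C.filter RealPow).card ≤
          P.card + d * (B.filter RealPow).card) := by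
  obtain ⟨C', hC'⟩ := exists_liftMul C hC
  obtain ⟨B', hB'⟩ := exists_liftMul B hB
  have hex : ∀ a : ℂ, ∃ w : ℕ, 0 < w ∧ (RealPow a → (a ^ w).im = 0) := by
    intro a
    by_cases h : RealPow a
    · obtain ⟨-, w, hw, hv⟩ := h
      exact ⟨w, hw, fun _ => hv⟩
    · exact ⟨1, one_pos, fun h' => absurd h' h⟩
  choose wA hwA hvA using hex
  set q : ℕ := Nat.card k with hqd
  have hq0 : 0 < q := Nat.card_pos
  -- the exponents
  obtain ⟨M₁, hM₁⟩ : ∃ M : ℕ, M = (D₀ + 1).factorial * D₀.factorial := ⟨_, rfl⟩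
  obtain ⟨M₂, hM₂⟩ : ∃ M : ℕ, M = ∏ a ∈ (B + C).toFinset, wA a := ⟨_, rfl⟩
  have hM₁0 : M₁ ≠ 0 := by
    rw [hM₁]
    exact mul_ne_zero (Nat.factorial_ne_zero _) (Nat.factorial_ne_zero _)
  have hM₂0 : M₂ ≠ 0 := by
    rw [hM₂]
    exact Finset.prod_ne_zero_iff.2 fun a _ => (hwA a).ne'
  obtain ⟨M₃, hM₃⟩ : ∃ M : ℕ, M = 2 * M₁ * M₂ * r₀ := ⟨_, rfl⟩
  have hM₃0 : M₃ ≠ 0 := by
    rw [hM₃]
    exact mul_ne_zero (mul_ne_zero (mul_ne_zero two_ne_zero hM₁0) hM₂0) hr₀.ne'
  have hreal : ∀ a ∈ B + C, RealPow a → (a ^ M₃).im = 0 := by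
    intro a ha hra
    have h1 : wA a ∣ M₃ := by
      rw [hM₃, hM₂]
      exact ((Finset.dvd_prod_of_mem wA (Multiset.mem_toFinset.2 ha)).trans
        (dvd_mul_left _ _)).trans (dvd_mul_right _ _)
    obtain ⟨t, ht⟩ := h1
    have h2 := hvA a hra
    have h3 : a ^ wA a = (((a ^ wA a).re : ℝ) : ℂ) := Complex.ext (by simp) (by simp [h2])
    rw [ht, pow_mul, h3, ← Complex.ofReal_pow]
    exact Complex.ofReal_im _
  -- the exceptional elements
  set E : Finset Zb := (B' + C').toFinset with hE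
  set C₁ : Finset Zb := E.image (fun b => b ^ M₃) with hC₁
  set V : Finset Zb := ((C₁.image (fun c => conjZ c - c)) ∪ E).filter (fun v => v ≠ 0) with hV
  have hV0 : ∀ v ∈ V, v ≠ 0 := fun v hv => (Finset.mem_filter.1 hv).2
  have hfin : {ℓ : ℕ | ℓ ≤ q + 2}.Finite := Set.finite_Iic (q + 2)
  refine ⟨_, (hom_density C₁ V hV0).diff hfin, ?_⟩
  rintro ℓ ⟨⟨hℓ, R, _, _, ρ, hρC, hρV⟩, hℓ2⟩
  have hℓ2' : q + 2 < ℓ := by
    by_contra h
    exact hℓ2 (not_lt.1 h)
  have hfact : Fact ℓ.Prime := ⟨hℓ⟩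
  have hpowℓ : ∀ x : R, x ^ ℓ = x ^ (ℓ - 1) * x := by
    intro x
    rw [← pow_succ, Nat.sub_add_cancel hℓ.one_lt.le]
  have hqℓ : ((q : ℕ) : R) ^ (ℓ - 1) = 1 := by
    have h1 : ((q : ℕ) : ZMod ℓ) ≠ 0 := by
      intro h
      have h1 := (ZMod.natCast_eq_zero_iff q ℓ).1 h
      have := Nat.le_of_dvd hq0 h1
      omega
    have h2 := congrArg (ZMod.castHom (dvd_refl ℓ) R) (ZMod.pow_card_sub_one_eq_one h1)
    rw [map_pow, map_natCast, map_one] at h2
    exact h2
  refine ⟨hℓ, ?_⟩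
  intro j n d r hr hr0 ι dg A P D hdg hd hA hD hz hl
  obtain ⟨T, hT⟩ := hr
  have hT0 : T ≠ 0 := by
    rintro rfl
    rw [mul_zero] at hT
    have h1 : ℓ - 1 ≠ 0 := by omega
    exact mul_ne_zero (mul_ne_zero hr₀.ne' h1) (pow_pos hℓ.pos j).ne' hT
  obtain ⟨M, hM⟩ : ∃ M : ℕ, M = 2 * M₁ * M₂ * T := ⟨_, rfl⟩
  have hM0 : M ≠ 0 := by
    rw [hM]
    exact mul_ne_zero (mul_ne_zero (mul_ne_zero two_ne_zero hM₁0) hM₂0) hT0
  have hrM : r * M = M₃ * ((ℓ - 1) * ℓ ^ j) := by
    calc r * M = 2 * M₁ * M₂ * (r * T) := by rw [hM]; ring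
      _ = M₃ * ((ℓ - 1) * ℓ ^ j) := by rw [← hT, hM₃]; ring
  obtain ⟨A', P', D', hA', hP', hD', hl'⟩ := integral_P hℓ hdg hA hD hl
  have hA2 : ∀ z, ∀ a ∈ A' z, a ^ ℓ ^ n = 1 := by
    intro z a ha
    apply zb_inj
    rw [map_pow, map_one]
    apply hA z
    rw [← hA']
    exact Multiset.mem_map_of_mem _ ha
  have hcount := exact_count (r := r) hℓ ρ hdg (C' := C') (B' := B') (P' := P') (D' := D')
    (A' := A') (d := d) (n := n)
    (fun z => by rw [← Multiset.card_map (algebraMap Zb ℂ) (A' z), hA', hd])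
    hA2 (by rw [hB', hC']; exact hz) hl' hM0
  -- the numbers in `B` and `C`
  have hkey : ∀ x ∈ E, algebraMap Zb ℂ x ∈ B + C →
      (ρ x ^ (r * M) = 1 ↔ RealPow (algebraMap Zb ℂ x)) := by
    intro x hx hxBC
    have hxC : x ^ M₃ ∈ C₁ := Finset.mem_image.2 ⟨x, hx, rfl⟩
    rw [hrM]
    constructor
    · intro h
      have h1 : ρ (x ^ M₃) ^ (ℓ - 1) = 1 := by
        apply eq_one_of_pow (ℓ := ℓ) (m := j)
        rw [map_pow, ← pow_mul, ← pow_mul]
        exact h
      have h4 : ρ (x ^ M₃) ^ ℓ = ρ (x ^ M₃) := by rw [hpowℓ, h1, one_mul]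
      have h6 : ρ (conjZ (x ^ M₃) - x ^ M₃) = 0 := by
        rw [map_sub, hρC _ hxC (conjZ (x ^ M₃)) rfl, h4, sub_self]
      have h7 : conjZ (x ^ M₃) - x ^ M₃ = 0 := by
        by_contra hne
        exact hρV _ (Finset.mem_filter.2 ⟨Finset.mem_union_left _
          (Finset.mem_image.2 ⟨x ^ M₃, hxC, rfl⟩), hne⟩) h6
      have h8 : (starRingEnd ℂ) ((x ^ M₃ : Zb) : ℂ) = ((x ^ M₃ : Zb) : ℂ) := by
        have := congrArg (fun x : Zb => (x : ℂ)) (sub_eq_zero.1 h7)
        exact this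
      refine ⟨?_, M₃, Nat.pos_of_ne_zero hM₃0, Complex.conj_eq_iff_im.1 h8⟩
      intro h0
      have hx0 : x = 0 := zb_inj (by rw [h0, map_zero])
      have hne : M₃ * ((ℓ - 1) * ℓ ^ j) ≠ 0 := by
        rw [← hrM]
        exact mul_ne_zero hr0 hM0
      rw [hx0, map_zero, zero_pow hne] at h
      exact zero_ne_one h
    · intro h
      have h1 := hreal _ hxBC h
      have hx0 : x ≠ 0 := by
        rintro rfl
        exact h.1 (map_zero _)
      have hρx : ρ x ≠ 0 := hρV x (Finset.mem_filter.2 ⟨Finset.mem_union_right _ hx, hx0⟩)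
      have hconj : conjZ (x ^ M₃) = x ^ M₃ := by
        apply Subtype.ext
        show (starRingEnd ℂ) ((x ^ M₃ : Zb) : ℂ) = ((x ^ M₃ : Zb) : ℂ)
        rw [Complex.conj_eq_iff_im]
        exact h1
      have h2 : ρ (x ^ M₃) = ρ (x ^ M₃) ^ ℓ := by
        have := hρC _ hxC (conjZ (x ^ M₃)) rfl
        rwa [hconj] at this
      have h3 : ρ (x ^ M₃) ≠ 0 := by
        rw [map_pow]
        exact pow_ne_zero _ hρx
      have h4 : ρ (x ^ M₃) ^ (ℓ - 1) = 1 := by
        rw [hpowℓ] at h2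
        exact (mul_right_cancel₀ h3 (by rw [one_mul]; exact h2)).symm
      rw [pow_mul, pow_mul, ← map_pow, h4, one_pow]
  have hcard : ∀ X' : Multiset Zb, (∀ x ∈ X', x ∈ E ∧ algebraMap Zb ℂ x ∈ B + C) →
      (X'.filter (fun b => ρ b ^ (r * M) = 1)).card =
        ((X'.map (algebraMap Zb ℂ)).filter RealPow).card := by
    intro X' hX
    rw [Multiset.filter_map, Multiset.card_map]
    congr 1
    refine Multiset.filter_congr fun x hx => ?_
    exact hkey x (hX x hx).1 (hX x hx).2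
  have hBE : ∀ x ∈ B', x ∈ E ∧ algebraMap Zb ℂ x ∈ B + C := fun x hx =>
    ⟨Multiset.mem_toFinset.2 (Multiset.mem_add.2 (Or.inl hx)),
      Multiset.mem_add.2 (Or.inl (by rw [← hB']; exact Multiset.mem_map_of_mem _ hx))⟩
  have hCE : ∀ x ∈ C', x ∈ E ∧ algebraMap Zb ℂ x ∈ B + C := fun x hx =>
    ⟨Multiset.mem_toFinset.2 (Multiset.mem_add.2 (Or.inr hx)),
      Multiset.mem_add.2 (Or.inr (by rw [← hC']; exact Multiset.mem_map_of_mem _ hx))⟩
  rw [hcard B' hBE, hcard C' hCE, hB', hC'] at hcount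
  -- the numbers in `P`
  have hgood : ∀ X : Multiset Zb, X.card ≤ D₀ → ∀ x : Zb, Twisted (q ^ r) (algebraMap Zb ℂ x) →
      (∀ σ : Qb ≃ₐ[ℚ] Qb, (∀ x : Qb, x ^ ℓ ^ n = 1 → σ x = x) → x ≠ 0 →
        σ (jQ x) ∈ X.map jQ) → ρ x ^ M = 1 := by
    rintro X hXD x ⟨s, w, hs, hsw⟩ hlt
    have hcw0 : ((q ^ r : ℕ) : ℂ) ^ w ≠ 0 := by
      apply pow_ne_zero
      have : q ^ r ≠ 0 := (pow_pos hq0 r).ne'
      exact_mod_cast this
    set ζ : ℂ := (algebraMap Zb ℂ x) ^ 2 / ((q ^ r : ℕ) : ℂ) ^ w with hζ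
    have hζs : ζ ^ s = 1 := by
      rw [hζ, div_pow, hsw, div_self (pow_ne_zero s hcw0)]
    have hint : IsIntegral ℤ ζ := by
      refine IsIntegral.of_pow hs ?_
      rw [hζs]
      exact isIntegral_one
    set η : Zb := ⟨ζ, hint⟩ with hη
    have hη1 : algebraMap Zb ℂ η = ζ := rfl
    have hηs : η ^ s = 1 := by
      apply zb_inj
      rw [map_pow, hη1, hζs, map_one]
    have hxη : x ^ 2 = η * (((q ^ r) ^ w : ℕ) : Zb) := by
      apply zb_inj
      have hcc : (((q ^ r) ^ w : ℕ) : ℂ) = ((q ^ r : ℕ) : ℂ) ^ w := Nat.cast_pow _ _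
      rw [map_pow, map_mul, hη1, map_natCast, hcc, hζ, div_mul_cancel₀ _ hcw0]
    have ho : 0 < orderOf η := orderOf_pos_iff.2 (isOfFinOrder_iff_pow_eq_one.2 ⟨s, hs, hηs⟩)
    obtain ⟨e, w', hw', how⟩ := Nat.exists_eq_pow_mul_and_not_dvd ho.ne' ℓ hℓ.ne_one
    have hw'0 : 0 < w' := Nat.pos_of_ne_zero (by rintro rfl; exact hw' (dvd_zero _))
    have hprim : IsPrimitiveRoot η (w' * ℓ ^ e) := by
      rw [mul_comm, ← how]
      exact IsPrimitiveRoot.orderOf η
    have htot := order_le hℓ (n := n) (pow_pos (pow_pos hq0 r) w).ne' hxη hw'0 hw' hprim hlt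
    have hwM : w' ∣ M₁ := by
      rw [hM₁]
      exact totient_dvd hw'0 (htot.trans hXD)
    have hu3 : ρ η ^ w' = 1 := by
      apply eq_one_of_pow (ℓ := ℓ) (m := e)
      rw [← pow_mul, ← map_pow, hprim.pow_eq_one, map_one]
    have hu4 : ρ η ^ (M₁ * M₂ * T) = 1 := by
      obtain ⟨y, hy⟩ := hwM
      rw [hy, mul_assoc, mul_assoc, pow_mul, hu3, one_pow]
    have hq4 : (((q ^ r) ^ w : ℕ) : R) ^ (M₁ * M₂ * T) = 1 := by
      have h1 : (((q ^ r) ^ w : ℕ) : R) ^ (M₁ * M₂ * T) =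
          (((q : ℕ) : R) ^ (ℓ - 1)) ^ (r₀ * ℓ ^ j * w * M₁ * M₂) := by
        push_cast
        rw [← pow_mul, ← pow_mul, ← pow_mul]
        congr 1
        calc r * (w * (M₁ * M₂ * T)) = (r * T) * (w * M₁ * M₂) := by ring
          _ = (ℓ - 1) * (r₀ * ℓ ^ j * w * M₁ * M₂) := by rw [← hT]; ring
      rw [h1, hqℓ, one_pow]
    have hMe : M = 2 * (M₁ * M₂ * T) := by rw [hM]; ring
    rw [hMe, pow_mul, ← map_pow, hxη, map_mul, mul_pow, hu4, map_natCast, hq4, one_mul]
  have hP1 : ∀ (X' : Multiset Zb), (X'.filter (fun x => Twisted (q ^ r) (algebraMap Zb ℂ x))).card =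
      ((X'.map (algebraMap Zb ℂ)).filter (Twisted (q ^ r))).card := by
    intro X'
    rw [Multiset.filter_map, Multiset.card_map]
    rfl
  have hPc : P'.card = P.card := by rw [← hP', Multiset.card_map]
  have hDc : D'.card = D.card := by rw [← hD', Multiset.card_map]
  constructor
  · intro hPD
    have hsplit := filter_split (X := P') (Y := D')
      (fun x => Twisted (q ^ r) (algebraMap Zb ℂ x)) (fun x => ρ x ^ M = 1) (by
        intro x hx hbad
        by_contra hlt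
        rw [not_le] at hlt
        apply hbad
        refine hgood P' (by rw [hPc]; exact hPD) x hx ?_
        intro σ hσ hx0
        have h1 := conj_count hdg hA2 hl' σ hσ hx0
        rw [← cnt_pos]
        omega)
    rw [hP1 P', hP', hDc] at hsplit
    omega
  · intro hPD
    have hsplit := filter_split (X := D') (Y := P')
      (fun x => Twisted (q ^ r) (algebraMap Zb ℂ x)) (fun x => ρ x ^ M = 1) (by
        intro x hx hbad
        by_contra hlt
        rw [not_le] at hlt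
        apply hbad
        refine hgood D' (by rw [hDc]; exact hPD) x hx ?_
        intro σ hσ hx0
        have h1 := conj_count hdg hA2 hl' σ hσ hx0
        rw [← cnt_pos]
        omega)
    rw [hP1 D', hD', hPc] at hsplit
    omega

end Pool.Agent.R413.CV
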